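import Pool.Agent.Helper51.LPS.St

/-!
# Project LPS (MP_26ac92_gt), module ALGR: rotation of the polynomial
-/

set_option autoImplicit false

namespace Pool.Agent.Helper66.LPS

open MeasureTheory Pool.Helper51.PSB Pool.Helper51.LPS

private theorem exR (k : ℕ) (f : Fin (k + 3) → ℝ) (hf : ∑ l, f l ^ 2 = 1) :
    ∃ R : Fin (k + 3) → Fin (k + 3) → ℝ, (∀ l, R l 0 = f l) ∧
      (∀ i j, ∑ l, R l i * R l j = if i = j then 1 else 0) ∧
      (∀ l m, ∑ i, R l i * R m i = if l = m then 1 else 0) := by
  let F : W k := WithLp.toLp 2 f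
  have hF : (inner ℝ F F : ℝ) = 1 := by
    rw [← hf, PiLp.inner_apply]
    exact Finset.sum_congr rfl (fun l _ => by simp [F, sq])
  let v : Fin (k + 3) → W k := fun _ => F
  have hv : Orthonormal ℝ (Set.domRestrict ({0} : Set (Fin (k + 3))) v) := by
    rw [orthonormal_iff_ite]
    rintro ⟨i, hi⟩ ⟨j, hj⟩
    simp only [Set.mem_singleton_iff] at hi hj
    subst hi
    subst hj
    rw [if_pos rfl]
    exact hF
  obtain ⟨b, hb⟩ := Orthonormal.exists_orthonormalBasis_extension_of_card_eq
    (by rw [finrank_euclideanSpace]) hv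
  have h1 : ∀ i j, ∑ l, b i l * b j l = if i = j then 1 else 0 := by
    intro i j
    have h := (orthonormal_iff_ite.mp b.orthonormal) i j
    rw [← h, PiLp.inner_apply]
    exact Finset.sum_congr rfl (fun l _ => by simp [mul_comm])
  refine ⟨fun l i => b i l, fun l => ?_, h1, ?_⟩
  · show b 0 l = f l
    rw [hb 0 (by simp)]
  · let M : Matrix (Fin (k + 3)) (Fin (k + 3)) ℝ := fun l i => b i l
    have h2 : M.transpose * M = 1 := by
      ext i j
      rw [Matrix.mul_apply, Matrix.one_apply]
      exact h1 i j
    have h3 : M * M.transpose = 1 := mul_eq_one_comm.mp h2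
    intro l m
    have h4 := congrFun (congrFun h3 l) m
    rw [Matrix.mul_apply, Matrix.one_apply] at h4
    exact h4

theorem hAlgR : StAlg0 → StAlgR := by
  intro h0 k d P hP f hf hvan
  obtain ⟨R, hR0, hR1, hR2⟩ := exR k f hf
  let g : Fin (k + 3) → MvPolynomial (Fin (k + 3)) ℝ :=
    fun l => ∑ i, MvPolynomial.C (R l i) * MvPolynomial.X i
  have hg : ∀ l, (g l).IsHomogeneous 1 := by
    intro l
    refine MvPolynomial.IsHomogeneous.sum _ _ _ fun i _ => ?_
    exact MvPolynomial.IsHomogeneous.C_mul (MvPolynomial.isHomogeneous_X ℝ i) _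
  let P' : MvPolynomial (Fin (k + 3)) ℝ := MvPolynomial.aeval g P
  have hP' : P'.IsHomogeneous d := by
    have := hP.aeval g hg
    rwa [one_mul] at this
  have hdvd : qf k ∣ P' := by
    refine h0 k d P' hP' fun e he he0 => ?_
    have h1 := hvan (fun l => ∑ i, R l i * e i) ?_ ?_
    · show MvPolynomial.aeval (fun l => ((e l : ℂ) - Complex.I * (if l = 0 then 1 else 0)) / 2)
        (MvPolynomial.aeval g P) = 0
      rw [← AlgHom.comp_apply, MvPolynomial.comp_aeval]
      have h2 : (fun l => (MvPolynomial.aeval (fun l => ((e l : ℂ) - Complex.I *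
          (if l = 0 then 1 else 0)) / 2)) (g l)) =
          fun l => ((((∑ i, R l i * e i : ℝ)) : ℂ) - Complex.I * (f l : ℂ)) / 2 := by
        funext l
        simp only [g, map_sum, map_mul, MvPolynomial.aeval_C, MvPolynomial.aeval_X]
        have h3 : ∀ i : Fin (k + 3), (algebraMap ℝ ℂ) (R l i) *
            (((e i : ℂ) - Complex.I * (if i = 0 then 1 else 0)) / 2) =
            ((R l i : ℂ) * (e i : ℂ)) / 2 - Complex.I * (if i = 0 then (R l i : ℂ) else 0) / 2 := by
          intro i
          rw [Complex.coe_algebraMap]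
          split_ifs <;> ring
        rw [Finset.sum_congr rfl fun i _ => h3 i, Finset.sum_sub_distrib]
        have h4 : ∑ i : Fin (k + 3), Complex.I * (if i = 0 then (R l i : ℂ) else 0) / 2 =
            Complex.I * (f l : ℂ) / 2 := by
          rw [Finset.sum_eq_single 0]
          · rw [if_pos rfl, hR0]
          · intro i _ hi
            rw [if_neg hi]
            ring
          · intro h
            exact absurd (Finset.mem_univ _) h
        rw [h4, ← Finset.sum_div]
        push_cast
        ring
      rw [h2]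
      exact h1
    · have h2 : ∀ l : Fin (k + 3), (∑ i, R l i * e i) ^ 2 = ∑ i, ∑ j, (R l i * R l j) * (e i * e j) := by
        intro l
        rw [sq, Finset.sum_mul_sum]
        refine Finset.sum_congr rfl fun i _ => Finset.sum_congr rfl fun j _ => ?_
        ring
      rw [Finset.sum_congr rfl fun l _ => h2 l, Finset.sum_comm, ← he]
      refine Finset.sum_congr rfl fun i _ => ?_
      rw [Finset.sum_comm]
      have h3 : ∀ j : Fin (k + 3), ∑ l, (R l i * R l j) * (e i * e j) =
          if i = j then e i * e j else 0 := by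
        intro j
        rw [← Finset.sum_mul, hR1]
        split_ifs <;> ring
      rw [Finset.sum_congr rfl fun j _ => h3 j, Finset.sum_ite_eq, if_pos (Finset.mem_univ _), sq]
    · have h2 : ∀ l : Fin (k + 3), (∑ i, R l i * e i) * f l = ∑ i, (R l i * R l 0) * e i := by
        intro l
        rw [Finset.sum_mul]
        refine Finset.sum_congr rfl fun i _ => ?_
        rw [hR0]
        ring
      rw [Finset.sum_congr rfl fun l _ => h2 l, Finset.sum_comm]
      have h3 : ∀ i : Fin (k + 3), ∑ l, (R l i * R l 0) * e i = if i = 0 then e i else 0 := by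
        intro i
        rw [← Finset.sum_mul, hR1]
        split_ifs <;> ring
      rw [Finset.sum_congr rfl fun i _ => h3 i, Finset.sum_ite_eq', if_pos (Finset.mem_univ _), he0]
  let g' : Fin (k + 3) → MvPolynomial (Fin (k + 3)) ℝ :=
    fun i => ∑ l, MvPolynomial.C (R l i) * MvPolynomial.X l
  have hback : ∀ l, MvPolynomial.aeval g' (g l) = MvPolynomial.X l := by
    intro l
    simp only [g, g', map_sum, map_mul, MvPolynomial.aeval_X]
    have h3 : ∀ i : Fin (k + 3), (MvPolynomial.aeval fun i => ∑ l, MvPolynomial.C (R l i) *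
        MvPolynomial.X l) (MvPolynomial.C (R l i)) *
        ∑ m, MvPolynomial.C (R m i) * (MvPolynomial.X m : MvPolynomial (Fin (k + 3)) ℝ) =
        ∑ m, MvPolynomial.C (R l i * R m i) * MvPolynomial.X m := by
      intro i
      rw [MvPolynomial.aeval_C, MvPolynomial.algebraMap_eq, Finset.mul_sum]
      refine Finset.sum_congr rfl fun m _ => ?_
      rw [MvPolynomial.C_mul, mul_assoc]
    rw [Finset.sum_congr rfl fun i _ => h3 i, Finset.sum_comm]
    have h4 : ∀ m : Fin (k + 3), ∑ i, MvPolynomial.C (R l i * R m i) *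
        (MvPolynomial.X m : MvPolynomial (Fin (k + 3)) ℝ) =
        if l = m then MvPolynomial.X m else 0 := by
      intro m
      rw [← Finset.sum_mul, ← map_sum, hR2]
      split_ifs
      · rw [MvPolynomial.C_1, one_mul]
      · rw [MvPolynomial.C_0, zero_mul]
    rw [Finset.sum_congr rfl fun m _ => h4 m, Finset.sum_ite_eq, if_pos (Finset.mem_univ _)]
  have hPb : MvPolynomial.aeval g' P' = P := by
    show MvPolynomial.aeval g' (MvPolynomial.aeval g P) = P
    rw [← AlgHom.comp_apply, MvPolynomial.comp_aeval]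
    have h2 : (fun l => (MvPolynomial.aeval g') (g l)) = MvPolynomial.X := funext hback
    rw [h2, MvPolynomial.aeval_X_left]
    rfl
  have hqb : MvPolynomial.aeval g' (qf k) = qf k := by
    unfold qf
    simp only [map_sum, map_pow, MvPolynomial.aeval_X]
    have h2 : ∀ i : Fin (k + 3), (g' i) ^ 2 = ∑ l, ∑ m, MvPolynomial.C (R l i * R m i) *
        (MvPolynomial.X l * MvPolynomial.X m) := by
      intro i
      simp only [g']
      rw [sq, Finset.sum_mul_sum]
      refine Finset.sum_congr rfl fun l _ => Finset.sum_congr rfl fun m _ => ?_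
      rw [MvPolynomial.C_mul]
      ring
    rw [Finset.sum_congr rfl fun i _ => h2 i, Finset.sum_comm]
    refine Finset.sum_congr rfl fun l _ => ?_
    rw [Finset.sum_comm]
    have h3 : ∀ m : Fin (k + 3), ∑ i, MvPolynomial.C (R l i * R m i) *
        ((MvPolynomial.X l : MvPolynomial (Fin (k + 3)) ℝ) * MvPolynomial.X m) =
        if l = m then MvPolynomial.X l * MvPolynomial.X m else 0 := by
      intro m
      rw [← Finset.sum_mul, ← map_sum, hR2]
      split_ifs
      · rw [MvPolynomial.C_1, one_mul]
      · rw [MvPolynomial.C_0, zero_mul]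
    rw [Finset.sum_congr rfl fun m _ => h3 m, Finset.sum_ite_eq, if_pos (Finset.mem_univ _), sq]
  have hfin := map_dvd (MvPolynomial.aeval g') hdvd
  rwa [hPb, hqb] at hfin

end Pool.Agent.Helper66.LPS
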